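import Pool.Agent.H3.Refl.M5
import Pool.Agent.H3.Refl.M6
import Pool.Agent.H3.Refl.M2
import Pool.Agent.H3.Refl.M4Sp
import Pool.Agent.H3.Refl.M4O

/-!
# Reflection factorisations of Singer cycles in symplectic and orthogonal groups

Let `F` be a finite field with `q` elements, `V` a space of dimension `2n > 0` over `F`, and
`c` an irreducible linear automorphism of `V` of order `h = q ^ n + 1` which preserves a
nondegenerate alternating form (or a quadratic form with zero radical).  Then the number of
factorisations of `c` into `2n` reflections of the isometry group is `h ^ (2n - 1)`.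
-/

set_option autoImplicit false

namespace Pool.Agent.Results.MP_f86ddb_al.SingerReflections

open Pool.Agent.H3.Refl

/-- The number of factorisations of a Singer cycle `c` (an irreducible element of order
`q ^ n + 1`) of `Sp_{2n}(q)` or of the orthogonal group of a nondegenerate quadratic form in
dimension `2n` into `2n` reflections is `|c| ^ (2n - 1)`. -/
theorem result (F V : Type) [Field F] [Fintype F] [AddCommGroup V] [Module F V] [Fintype V]
    (n : ℕ) (hn : 0 < n) (hV : Module.finrank F V = 2 * n)
    (c : V ≃ₗ[F] V) (hc : IsIrred c) (ho : orderOf c = Fintype.card F ^ n + 1) :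
    (∀ ω : LinearMap.BilinForm F V, ω.IsAlt → ω.Nondegenerate → c ∈ isomGroup ω →
      Set.ncard (factorizations (isomGroup ω) c (2 * n)) = orderOf c ^ (2 * n - 1)) ∧
    (∀ Q : QuadraticForm F V, Q.radical = ⊥ → c ∈ orthGroup Q →
      Set.ncard (factorizations (orthGroup Q) c (2 * n)) = orderOf c ^ (2 * n - 1)) := by
  refine ⟨?_, ?_⟩
  · intro ω ha hω hcω
    exact final_sp m2 m4Sp F V n ω c hn hV ha hω hcω hc ho
  · intro Q hQ hcQ
    exact final_o m2 m4O F V n Q c hn hV (polar_nondeg Q c (by omega) hQ hcQ hc) hcQ hc ho

end Pool.Agent.Results.MP_f86ddb_al.SingerReflections
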